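import Pool.Agent.helper38.VA.Spec

/-! # va: row DIS -/

set_option autoImplicit false

namespace Pool.Agent.VA

open Matrix Module Pool.Agent.PR Pool.Agent.H48SL

theorem DIS (hEIG : EIG_stmt) (hDFM : DFM_stmt) : DIS_stmt := by
  intro n H W b k φ hSI hDT X hX
  obtain ⟨B, hB1, hB2, -⟩ := hDFM n W k φ hSI.com hDT
  obtain ⟨X₀, hX₀, hne⟩ : ∃ X₀ ∈ W, X₀ ≠ 0 := by
    by_contra hcon
    push Not at hcon
    have h1 : W = ⊥ := (Submodule.eq_bot_iff W).2 hcon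
    have h2 := hSI.two
    rw [h1, finrank_bot] at h2
    omega
  set E : MQ n := vecMulVec k φ with hE
  have hsq : ∀ Y ∈ W, Y * Y = B Y Y • E := fun Y hY => (hB1 Y hY Y hY).1
  have hβ : B X₀ X₀ ≠ 0 := fun h => hne (hB2 X₀ hX₀ h)
  have hcb : cj b E = ((B X₀ X₀)⁻¹ * B (cj b X₀) (cj b X₀)) • E := by
    have h1 : cj b (X₀ * X₀) = cj b X₀ * cj b X₀ := cj_mul_apply b X₀ X₀
    rw [hsq X₀ hX₀, hsq (cj b X₀) (hSI.sta X₀ hX₀), map_smul] at h1
    rw [mul_smul, ← h1, smul_smul, inv_mul_cancel₀ hβ, one_smul]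
  have hE2 : cj (b ^ 2) E = E := by
    by_cases hE0 : E = 0
    · rw [hE0, map_zero]
    · rw [pow_two, cj_mul, hcb, map_smul, hcb, smul_smul]
      rcases (hEIG n b _).2.2 E hE0 hcb with h | h
      · rw [h, one_mul, one_smul]
      · rw [h, neg_one_mul, neg_neg, one_smul]
  rw [← cj_mul_apply, hsq X hX, map_smul, hE2]

end Pool.Agent.VA
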